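import Mathlib
import Pool.Agent.TeamU.TowerFinal
import Pool.Agent.TeamU.G9

/-!
# Finding all unit distance pairs in the plane: a polynomially superlinear lower bound

A real RAM is modelled by programs over an explicit instruction set (arithmetic on real registers,
comparison of real registers, index registers, a real memory and an index memory addressed through
index registers, and an instruction that writes one pair of indices to the output).  For every program that lists the unit distance pairs of
every finite set of distinct points of the plane, and for every `n ≥ n₀`, there is an input of `n`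
points on which the program makes at least `n ^ (1 + ε)` steps, for an absolute constant `ε > 0`.
-/

open Finset

namespace Pool.Agent.Results.MP_31a0d1_lc.PolynomialLower

/-- The four arithmetic operations. -/
inductive Op
  | add | sub | mul | div

/-- The value of an arithmetic operation on two reals. -/
noncomputable def Op.real : Op → ℝ → ℝ → ℝ
  | .add, x, y => x + y
  | .sub, x, y => x - y
  | .mul, x, y => x * y
  | .div, x, y => x / y

/-- The value of an arithmetic operation on two natural numbers (truncated subtraction, integer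
division). -/
def Op.nat : Op → ℕ → ℕ → ℕ
  | .add, x, y => x + y
  | .sub, x, y => x - y
  | .mul, x, y => x * y
  | .div, x, y => x / y

/-- The instructions of the real RAM.  The machine has real registers `reg 0, reg 1, …`, index
registers `ind 0, ind 1, …` (holding natural numbers), a real memory `mem 0, mem 1, …` and an index
memory `idm 0, idm 1, …`, both addressed through index registers, and an output list of pairs of
natural numbers. -/
inductive Instr
  /-- `reg a := x` -/
  | setReal (a : ℕ) (x : ℝ)
  /-- `reg a := reg b o reg c` -/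
  | opReal (o : Op) (a b c : ℕ)
  /-- `reg a := mem (ind i)` -/
  | load (a i : ℕ)
  /-- `mem (ind i) := reg a` -/
  | store (i a : ℕ)
  /-- `ind i := m` -/
  | setInd (i m : ℕ)
  /-- `ind i := ind j o ind k` -/
  | opInd (o : Op) (i j k : ℕ)
  /-- `ind i := idm (ind j)` -/
  | loadInd (i j : ℕ)
  /-- `idm (ind i) := ind j` -/
  | storeInd (i j : ℕ)
  /-- `if reg a ≤ reg b then goto l` -/
  | jumpReal (a b l : ℕ)
  /-- `if ind i ≤ ind j then goto l` -/
  | jumpInd (i j l : ℕ)
  /-- write the pair `(ind i, ind j)` to the output -/
  | emit (i j : ℕ)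
  /-- stop -/
  | halt

/-- A program is a finite list of instructions. -/
abbrev Program := List Instr

/-- A configuration: program counter, index registers, real registers, index memory, real memory,
output written so far. -/
structure Config where
  pc : ℕ
  ind : ℕ → ℕ
  reg : ℕ → ℝ
  idm : ℕ → ℕ
  mem : ℕ → ℝ
  out : List (ℕ × ℕ)

open Classical in
/-- The effect of one instruction (`none` for `halt`). -/
noncomputable def Instr.exec (c : Config) : Instr → Option Config
  | .setReal a x => some ⟨c.pc + 1, c.ind, Function.update c.reg a x, c.idm, c.mem, c.out⟩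
  | .opReal o a b d => some
      ⟨c.pc + 1, c.ind, Function.update c.reg a (o.real (c.reg b) (c.reg d)), c.idm, c.mem, c.out⟩
  | .load a i => some
      ⟨c.pc + 1, c.ind, Function.update c.reg a (c.mem (c.ind i)), c.idm, c.mem, c.out⟩
  | .store i a => some
      ⟨c.pc + 1, c.ind, c.reg, c.idm, Function.update c.mem (c.ind i) (c.reg a), c.out⟩
  | .setInd i m => some ⟨c.pc + 1, Function.update c.ind i m, c.reg, c.idm, c.mem, c.out⟩
  | .opInd o i j k => some
      ⟨c.pc + 1, Function.update c.ind i (o.nat (c.ind j) (c.ind k)), c.reg, c.idm, c.mem, c.out⟩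
  | .loadInd i j => some
      ⟨c.pc + 1, Function.update c.ind i (c.idm (c.ind j)), c.reg, c.idm, c.mem, c.out⟩
  | .storeInd i j => some
      ⟨c.pc + 1, c.ind, c.reg, Function.update c.idm (c.ind i) (c.ind j), c.mem, c.out⟩
  | .jumpReal a b l => some
      ⟨if c.reg a ≤ c.reg b then l else c.pc + 1, c.ind, c.reg, c.idm, c.mem, c.out⟩
  | .jumpInd i j l => some
      ⟨if c.ind i ≤ c.ind j then l else c.pc + 1, c.ind, c.reg, c.idm, c.mem, c.out⟩
  | .emit i j => some ⟨c.pc + 1, c.ind, c.reg, c.idm, c.mem, (c.ind i, c.ind j) :: c.out⟩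
  | .halt => none

/-- One step of the program: `none` if the machine has stopped (at an instruction `halt`, or when
the program counter points outside the program). -/
noncomputable def step (π : Program) (c : Config) : Option Config :=
  (π[c.pc]?).bind fun I => I.exec c

/-- The configuration after `t` steps (a machine that has stopped keeps its configuration). -/
noncomputable def run (π : Program) (c : Config) : ℕ → Config
  | 0 => c
  | t + 1 => (step π (run π c t)).getD (run π c t)

/-- The initial configuration on the points `p 0, …, p (n - 1)`: the number `n` is in `ind 0`, the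
coordinates of `p i` are in `mem (2 * i)` and `mem (2 * i + 1)`; everything else is `0`, and the
output is empty. -/
noncomputable def init {n : ℕ} (p : Fin n → EuclideanSpace ℝ (Fin 2)) : Config where
  pc := 0
  ind := fun i => if i = 0 then n else 0
  reg := fun _ => 0
  idm := fun _ => 0
  mem := fun k => if h : k / 2 < n then p ⟨k / 2, h⟩ (if k % 2 = 0 then 0 else 1) else 0
  out := []

/-- The program has stopped after at most `t` steps on the input `p`. -/
def StoppedBy (π : Program) {n : ℕ} (p : Fin n → EuclideanSpace ℝ (Fin 2)) (t : ℕ) : Prop :=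
  step π (run π (init p) t) = none

/-- The running time on the input `p`: the number of steps made before the machine stops. -/
noncomputable def time (π : Program) {n : ℕ} (p : Fin n → EuclideanSpace ℝ (Fin 2)) : ℕ :=
  sInf {t | StoppedBy π p t}

/-- The program lists all unit distance pairs: on every input of distinct points it stops, and the
pairs of indices in its output are the pairs of points at distance `1` (each pair may be written in
either order and more than once). -/
def ListsUnitPairs (π : Program) : Prop :=
  ∀ (n : ℕ) (p : Fin n → EuclideanSpace ℝ (Fin 2)), Function.Injective p →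
    (∃ t, StoppedBy π p t) ∧
    ∀ i j : ℕ, ((i, j) ∈ (run π (init p) (time π p)).out ∨
        (j, i) ∈ (run π (init p) (time π p)).out) ↔
      ∃ (hi : i < n) (hj : j < n), dist (p ⟨i, hi⟩) (p ⟨j, hj⟩) = 1

theorem exec_length (c c' : Config) (I : Instr) (h : I.exec c = some c') :
    c'.out.length ≤ c.out.length + 1 := by
  cases I <;> simp only [Instr.exec, Option.some.injEq, reduceCtorEq] at h <;> subst h <;> simp

theorem run_length (π : Program) (c : Config) (t : ℕ) :
    (run π c t).out.length ≤ c.out.length + t := by
  induction t with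
  | zero => simp [run]
  | succ t ih =>
    rw [run]
    rcases hs : step π (run π c t) with _ | c'
    · simp only [Option.getD_none]
      omega
    · simp only [Option.getD_some]
      unfold step at hs
      rw [Option.bind_eq_some_iff] at hs
      obtain ⟨I, -, hI⟩ := hs
      have := exec_length _ _ I hI
      omega

/-- The number of ordered unit distance pairs is at most twice the running time. -/
theorem unitPairs_le (π : Program) (hπ : ListsUnitPairs π) (P : Finset (EuclideanSpace ℝ (Fin 2)))
    (p : Fin P.card → EuclideanSpace ℝ (Fin 2)) (hp : Function.Injective p)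
    (hP : ∀ x ∈ P, ∃ i, p i = x) :
    TeamU.unitPairs P ≤ 2 * time π p := by
  classical
  obtain ⟨-, h⟩ := hπ _ p hp
  set out := (run π (init p) (time π p)).out with hout
  have hlen : out.length ≤ time π p := by
    have h1 := run_length π (init p) (time π p)
    have h2 : (init p).out = [] := rfl
    rw [h2, List.length_nil, zero_add] at h1
    exact h1
  -- ordered pairs of indices
  set S : Finset (ℕ × ℕ) := out.toFinset ∪ out.toFinset.image Prod.swap with hS
  have hScard : S.card ≤ 2 * time π p := by
    have h1 : out.toFinset.card ≤ out.length := List.toFinset_card_le _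
    have h2 : (out.toFinset.image Prod.swap).card ≤ out.toFinset.card := card_image_le
    have h3 := card_union_le out.toFinset (out.toFinset.image Prod.swap)
    rw [← hS] at h3
    omega
  refine le_trans ?_ hScard
  unfold TeamU.unitPairs
  have hP' : ∀ x ∈ P, ∃ i : ℕ, ∃ hi : i < P.card, p ⟨i, hi⟩ = x := by
    intro x hx
    obtain ⟨i, hi⟩ := hP x hx
    exact ⟨i, i.2, hi⟩
  choose! f hf using hP'
  refine card_le_card_of_injOn (fun z => (f z.1, f z.2)) ?_ ?_
  · intro z hz
    simp only [coe_filter, mem_product, Set.mem_ofPred_eq] at hz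
    obtain ⟨⟨h1, h2⟩, h3⟩ := hz
    obtain ⟨g1, e1⟩ := hf _ h1
    obtain ⟨g2, e2⟩ := hf _ h2
    have h4 := (h (f z.1) (f z.2)).2 ⟨g1, g2, by rw [e1, e2]; exact h3⟩
    simp only [coe_union, hS, Set.mem_union, mem_coe, List.mem_toFinset, mem_image]
    rcases h4 with h4 | h4
    · exact Or.inl h4
    · exact Or.inr ⟨_, h4, rfl⟩
  · rintro z hz w hw hzw
    simp only [coe_filter, mem_product, Set.mem_ofPred_eq] at hz hw
    simp only [Prod.mk.injEq] at hzw
    obtain ⟨h1, h2⟩ := hzw
    obtain ⟨g1, e1⟩ := hf _ hz.1.1
    obtain ⟨g2, e2⟩ := hf _ hz.1.2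
    obtain ⟨g3, e3⟩ := hf _ hw.1.1
    obtain ⟨g4, e4⟩ := hf _ hw.1.2
    refine Prod.ext ?_ ?_
    · rw [← e1, ← e3]
      congr 1
      exact Fin.ext h1
    · rw [← e2, ← e4]
      congr 1
      exact Fin.ext h2

/-- There are an absolute constant `ε > 0` and an `n₀` such that every real RAM program listing the
unit distance pairs makes, for every `n ≥ n₀`, at least `n ^ (1 + ε)` steps on some input of `n`
distinct points. -/
theorem result : ∃ ε : ℝ, 0 < ε ∧ ∃ n₀ : ℕ, ∀ π : Program, ListsUnitPairs π →
    ∀ n : ℕ, n₀ ≤ n → ∃ p : Fin n → EuclideanSpace ℝ (Fin 2), Function.Injective p ∧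
      (n : ℝ) ^ (1 + ε) ≤ time π p := by
  classical
  obtain ⟨ε, hε, n0, h0⟩ := TeamU.main_of TeamU.obstructionBound TeamU.existsL0 TeamU.rankZ1
  obtain ⟨n1, hn1⟩ : ∃ n1 : ℕ, ∀ n : ℕ, n1 ≤ n → (2 : ℝ) ≤ (n : ℝ) ^ (ε / 2) := by
    have h1 : Filter.Tendsto (fun n : ℕ => (n : ℝ) ^ (ε / 2)) Filter.atTop Filter.atTop :=
      (tendsto_rpow_atTop (by positivity)).comp tendsto_natCast_atTop_atTop
    exact (h1.eventually_ge_atTop 2).exists_forall_of_atTop
  refine ⟨ε / 2, by positivity, max (max n0 n1) 1, fun π hπ n hn => ?_⟩
  have hn0 : n0 ≤ n := le_trans (le_trans (le_max_left _ _) (le_max_left _ _)) hn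
  have hn1' : n1 ≤ n := le_trans (le_trans (le_max_right _ _) (le_max_left _ _)) hn
  have hn2 : 1 ≤ n := le_trans (le_max_right _ _) hn
  have hnpos : (0 : ℝ) < n := by exact_mod_cast hn2
  -- an extremal set
  have hset : TeamU.f2 n ∈ {k : ℕ | ∃ P : Finset (EuclideanSpace ℝ (Fin 2)),
      P.card = n ∧ TeamU.unitPairs P = k} := by
    unfold TeamU.f2
    apply Nat.sSup_mem
    · obtain ⟨P, hP⟩ := Infinite.exists_subset_card_eq (EuclideanSpace ℝ (Fin 2)) n
      exact ⟨_, P, hP, rfl⟩
    · refine ⟨n * n, ?_⟩
      rintro k ⟨P, hP, rfl⟩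
      rw [← hP]
      exact TeamU.unitPairs_le_sq P
  obtain ⟨P, hPn, hPk⟩ := hset
  subst hPn
  obtain ⟨p, hp⟩ : ∃ p : Fin P.card → EuclideanSpace ℝ (Fin 2), Function.Injective p ∧
      ∀ x ∈ P, ∃ i, p i = x := by
    refine ⟨fun i => (P.equivFin.symm i : EuclideanSpace ℝ (Fin 2)), ?_, ?_⟩
    · exact Subtype.val_injective.comp P.equivFin.symm.injective
    · intro x hx
      exact ⟨P.equivFin ⟨x, hx⟩, by simp⟩
  refine ⟨p, hp.1, ?_⟩
  have h1 := unitPairs_le π hπ P p hp.1 hp.2
  rw [hPk] at h1
  have h2 := h0 _ hn0
  have h3 : (TeamU.f2 P.card : ℝ) ≤ 2 * time π p := by exact_mod_cast h1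
  have h4 : (P.card : ℝ) ^ (1 + ε) = (P.card : ℝ) ^ (1 + ε / 2) * (P.card : ℝ) ^ (ε / 2) := by
    rw [← Real.rpow_add hnpos]
    ring_nf
  have h5 := hn1 _ hn1'
  have h6 : (0 : ℝ) < (P.card : ℝ) ^ (1 + ε / 2) := by positivity
  nlinarith

end Pool.Agent.Results.MP_31a0d1_lc.PolynomialLower
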